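import Pool.Agent.Lib.MP_e18f8a_al.Amp
import Pool.Agent.Lib.MP_e18f8a_al.Cover

/-!
Approximate groups whose double sumset has small density on every translate of a triple
convolution of polynomially large sets.
-/

open Finset
open scoped Pointwise

namespace Pool.Agent.Results.MP_e18f8a_al.AlmostPeriodBarrier

open Pool.Agent.Lib.MP_e18f8a_al

lemma exists_k (D : ℝ) (hD : 1 ≤ D) : ∃ k : ℕ, 29 + 36 * D * (2 * k + 1) < 2 ^ k := by
  obtain ⟨j, hj⟩ := exists_nat_ge (200 * D)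
  refine ⟨2 * j, ?_⟩
  have h1 : (j : ℝ) + 1 ≤ 2 ^ j := by exact_mod_cast Nat.lt_two_pow_self
  have h2 : ((j : ℝ) + 1) * (j + 1) ≤ 2 ^ (2 * j) := by
    rw [two_mul, pow_add]; gcongr
  push_cast
  nlinarith

lemma hit {n k : ℕ} {D : ℝ} (hD : 1 ≤ D) (hk : 29 + 36 * D * (2 * k + 1) < 2 ^ k)
    (x : Fin n → ZMod 2) :
    Hit (fun u v w : Fin n → ZMod 2 => 2 ^ k ≤ #{i | (x + u + v + w) i = 0})
      (12 * D * Real.log (2 * 4 ^ k) + 8) := by
  intro U V W hU hV hW
  by_contra hcon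
  push Not at hcon
  have h := three_sets x (2 ^ k) U V W hcon
  set Λ := 12 * D * Real.log (2 * 4 ^ k) + 8 with hΛ
  have hN : (Fintype.card (Fin n → ZMod 2) : ℝ) = 2 ^ n := by simp
  rw [hN] at hU hV hW
  have h1 : (2 : ℝ) ^ n / (4 * Real.exp Λ) * (2 ^ n / (4 * Real.exp Λ)) *
      (2 ^ n / (4 * Real.exp Λ)) ≤ #U * #V * #W := by gcongr
  have h2 : (2 : ℝ) ^ n / (4 * Real.exp Λ) * (2 ^ n / (4 * Real.exp Λ)) *
      (2 ^ n / (4 * Real.exp Λ)) = 8 ^ n / (64 * Real.exp (3 * Λ)) := by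
    rw [show (8 : ℝ) = 2 * 2 * 2 by norm_num, mul_pow, mul_pow,
      show 3 * Λ = Λ + Λ + Λ by ring, Real.exp_add (Λ + Λ) Λ, Real.exp_add Λ Λ]
    have := Real.exp_pos Λ
    generalize Real.exp Λ = t at *
    field_simp
    norm_num
  have hl : Real.log (2 * 4 ^ k) ≤ 2 * k + 1 := by
    rw [show (2 : ℝ) * 4 ^ k = 2 ^ (2 * k + 1) by rw [pow_succ, pow_mul]; norm_num [mul_comm],
      Real.log_pow]
    have := Real.log_two_lt_d9
    push_cast
    nlinarith [(Nat.cast_nonneg k : (0 : ℝ) ≤ k)]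
  have h64 : (64 : ℝ) ≤ Real.exp 5 := by
    have h := Real.exp_one_gt_d9
    rw [show (5 : ℝ) = (5 : ℕ) * 1 by norm_num, Real.exp_nat_mul]
    calc (64 : ℝ) ≤ 2.7182818283 ^ 5 := by norm_num
      _ ≤ _ := by gcongr
  have h3 : 64 * Real.exp (3 * Λ) < 4 ^ 2 ^ k := by
    calc 64 * Real.exp (3 * Λ) ≤ Real.exp 5 * Real.exp (3 * Λ) := by gcongr
      _ = Real.exp (5 + 3 * Λ) := (Real.exp_add _ _).symm
      _ < Real.exp (((2 ^ k : ℕ) : ℝ) * 1) := by
          apply Real.exp_lt_exp.mpr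
          push_cast
          have : D * Real.log (2 * 4 ^ k) ≤ D * (2 * k + 1) := by gcongr
          nlinarith
      _ = Real.exp 1 ^ 2 ^ k := Real.exp_nat_mul _ _
      _ ≤ 4 ^ 2 ^ k := by
          have := Real.exp_one_lt_d9
          gcongr
          linarith
  rw [h2] at h1
  have h4 : (4 : ℝ) ^ 2 ^ k * (8 ^ n / (64 * Real.exp (3 * Λ))) ≤ 8 ^ n :=
    le_trans (by gcongr) h
  rw [← mul_div_assoc, div_le_iff₀ (by positivity), mul_comm] at h4
  have := le_of_mul_le_mul_left h4 (by positivity)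
  linarith

/-- For all `c, C, δ > 0` there is an approximate group `A` in a finite elementary abelian
`2`-group such that for all sets `S₁, S₂, S₃` of size at least `c K ^ (-C) |A|` and all `x`, at
most a proportion `δ` of the triples has `x + s₁ + s₂ + s₃ ∈ A + A`. -/
theorem result (c C δ : ℝ) (hc : 0 < c) (hC : 0 < C) (hδ : 0 < δ) :
    ∃ (G : Type) (_ : AddCommGroup G) (_ : Fintype G) (_ : DecidableEq G),
      (∀ g : G, g + g = 0) ∧ ∃ (K : ℝ) (A : Finset G), 1 ≤ K ∧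
        IsApproximateAddSubgroup K (A : Set G) ∧
        ∀ (S₁ S₂ S₃ : Finset G), c * K ^ (-C) * (A.card : ℝ) ≤ (S₁.card : ℝ) →
          c * K ^ (-C) * (A.card : ℝ) ≤ (S₂.card : ℝ) →
          c * K ^ (-C) * (A.card : ℝ) ≤ (S₃.card : ℝ) → ∀ x : G,
          (((S₁ ×ˢ S₂ ×ˢ S₃).filter fun s => x + s.1 + s.2.1 + s.2.2 ∈ A + A).card : ℝ) ≤
            δ * ((S₁.card : ℝ) * (S₂.card : ℝ) * (S₃.card : ℝ)) := by
  classical
  have hD : 1 ≤ C + 1 := by linarith
  obtain ⟨k, hk⟩ := exists_k (C + 1) hD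
  obtain ⟨n, A₀, X₀, hA0, hX, hcov, hsum⟩ := base k
  set κ : ℝ := 2 * 4 ^ k with hκ
  have hκ1 : 1 ≤ κ := by
    have : (1 : ℝ) ≤ 4 ^ k := one_le_pow₀ (by norm_num)
    rw [hκ]; linarith
  have hκ0 : 0 < κ := by linarith
  have hlog : 0 ≤ Real.log κ := Real.log_nonneg hκ1
  set Λ : ℝ := 12 * (C + 1) * Real.log κ + 8 with hΛ
  have hΛ8 : 8 ≤ Λ := by
    have : 0 ≤ 12 * (C + 1) * Real.log κ := by positivity
    linarith
  set N : ℝ := (Fintype.card (Fin n → ZMod 2) : ℝ) with hN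
  have hN1 : 1 ≤ N := by rw [hN]; exact_mod_cast Fintype.card_pos
  have hN0 : 0 < N := by linarith
  set η : ℝ := (64 * N ^ 6)⁻¹ / Λ with hη
  have hη0 : 0 < η := by positivity
  have hηΛ : η * Λ = (64 * N ^ 6)⁻¹ := div_mul_cancel₀ _ (by linarith)
  have hηΛ1 : η * Λ ≤ 1 := by
    rw [hηΛ]
    apply inv_le_one_of_one_le₀
    have : (1 : ℝ) ≤ N ^ 6 := one_le_pow₀ hN1
    linarith
  have hη1 : η < 1 := by nlinarith
  obtain ⟨m, hm⟩ := exists_nat_ge ((-(3 * η * Real.log c) - Real.log δ) / η)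
  rw [div_le_iff₀ hη0] at hm
  have two : ∀ a : ZMod 2, a + a = 0 := by decide
  have hNA : N ≤ κ * #A₀ := by
    have h1 : (univ : Finset (Fin n → ZMod 2)) ⊆ X₀ + A₀ := fun x _ => by
      obtain ⟨h, hh, a, ha, rfl⟩ := hcov x
      exact add_mem_add hh ha
    have h2 := (card_le_card h1).trans card_add_le
    have h3 : (#X₀ : ℝ) ≤ κ := by rw [hκ]; exact_mod_cast hX
    calc N ≤ #X₀ * #A₀ := by rw [hN, ← card_univ]; exact_mod_cast h2
      _ ≤ κ * #A₀ := by gcongr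
  refine ⟨Fin m → Fin n → ZMod 2, inferInstance, inferInstance, inferInstance,
    fun g => funext fun i => funext fun j => two _, κ ^ m, Fintype.piFinset fun _ => A₀,
    one_le_pow₀ hκ1, ⟨?_, ?_, ?_⟩, ?_⟩
  · simpa using fun _ => hA0
  · ext g
    have : -g = g := neg_eq_of_add_eq_zero_left (funext fun i => funext fun j => two _)
    rw [Set.mem_neg, this]
  · refine ⟨Fintype.piFinset fun _ => X₀, ?_, fun g _ => ?_⟩
    · rw [Fintype.card_piFinset, prod_const, card_univ, Fintype.card_fin]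
      push_cast
      gcongr
      rw [hκ]; exact_mod_cast hX
    · choose h hh a ha e using fun i => hcov (g i)
      exact ⟨h, by simpa using hh, a, by simpa using ha, funext e⟩
  intro S₁ S₂ S₃ s1 s2 s3 x
  have key := amp (α := Fin n → ZMod 2) hη0.le hη1 (by linarith) hηΛ1 hηΛ.le m
    (fun i u v w => 2 ^ k ≤ #{j | (x i + u + v + w) j = 0}) (fun i => hit hD hk (x i))
    (fun u => if u ∈ S₁ then 1 else 0) (fun u => if u ∈ S₂ then 1 else 0)
    (fun u => if u ∈ S₃ then 1 else 0) (fun u => by positivity) (fun u => by positivity)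
    (fun u => by positivity)
  simp only [sum_ite_mem, univ_inter, sum_const, nsmul_eq_mul, mul_one] at key
  rw [← hN] at key
  have hq : (1 - η) ≠ 0 := by linarith
  -- the count is bounded by the trilinear sum
  have hcount : ((#((S₁ ×ˢ S₂ ×ˢ S₃).filter fun s => x + s.1 + s.2.1 + s.2.2 ∈
      (Fintype.piFinset fun _ : Fin m => A₀) + Fintype.piFinset fun _ => A₀) : ℕ) : ℝ) ≤
      ((1 - η * (Λ / 4 - 1)) * (N ^ η) ^ 3) ^ m *
        ((#S₁ : ℝ) ^ (1 - η) * (#S₂ : ℝ) ^ (1 - η) * (#S₃ : ℝ) ^ (1 - η)) := by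
    refine le_trans ?_ key
    rw [card_filter, Nat.cast_sum, sum_product]
    refine le_trans (sum_le_sum fun u hu => ?_)
      (sum_le_sum_of_subset_of_nonneg (subset_univ S₁) fun u _ _ =>
        sum_nonneg fun v _ => sum_nonneg fun w _ => by positivity)
    rw [sum_product]
    refine le_trans (sum_le_sum fun v hv => ?_)
      (sum_le_sum_of_subset_of_nonneg (subset_univ S₂) fun v _ _ =>
        sum_nonneg fun w _ => by positivity)
    refine le_trans (sum_le_sum fun w hw => ?_)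
      (sum_le_sum_of_subset_of_nonneg (subset_univ S₃) fun w _ _ => by positivity)
    simp only [hu, hv, hw, if_true, Real.one_rpow, mul_one]
    split_ifs with h1 h2
    · simp
    · exfalso
      obtain ⟨a, ha, b, hb, e⟩ := mem_add.mp h1
      refine h2 fun i => ?_
      have := hsum (a i) (Fintype.mem_piFinset.mp ha i) (b i) (Fintype.mem_piFinset.mp hb i)
      have e' : a i + b i = x i + u i + v i + w i := congrFun e i
      rwa [e'] at this
    · simp
    · simp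
  refine hcount.trans ?_
  -- sizes
  set σ : ℝ := c * Real.exp (-((C + 1) * m * Real.log κ)) * N ^ m with hσ
  have hσ0 : 0 < σ := by positivity
  have hσle : σ ≤ c * (κ ^ m) ^ (-C) * (#(Fintype.piFinset fun _ : Fin m => A₀) : ℝ) := by
    rw [Fintype.card_piFinset, prod_const, card_univ, Fintype.card_fin, hσ, mul_assoc c,
      mul_assoc c]
    push_cast
    refine mul_le_mul_of_nonneg_left ?_ hc.le
    have e1 : (κ ^ m) ^ (-C) = Real.exp (-((C + 1) * m * Real.log κ)) * κ ^ m := by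
      rw [Real.rpow_def_of_pos (by positivity), Real.log_pow]
      conv_rhs => rw [← Real.exp_log (pow_pos hκ0 m), ← Real.exp_add, Real.log_pow]
      congr 1; ring
    rw [e1, mul_assoc (Real.exp _), ← mul_pow]
    gcongr
  have hS : ∀ S : ℝ, σ ≤ S → S ^ (1 - η) ≤ S * σ ^ (-η) := by
    intro S h
    have h0 : 0 < S := hσ0.trans_le h
    rw [sub_eq_add_neg, Real.rpow_add h0, Real.rpow_one]
    exact mul_le_mul_of_nonneg_left
      (Real.rpow_le_rpow_of_nonpos hσ0 h (neg_nonpos.mpr hη0.le)) h0.le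
  have a1 := hS _ (hσle.trans s1)
  have a2 := hS _ (hσle.trans s2)
  have a3 := hS _ (hσle.trans s3)
  have hM0 : 0 ≤ 1 - η * (Λ / 4 - 1) := by nlinarith
  have hM : 1 - η * (Λ / 4 - 1) ≤ Real.exp (-(η * (Λ / 4 - 1))) := by
    have := Real.add_one_le_exp (-(η * (Λ / 4 - 1)))
    linarith
  have fin : (Real.exp (-(η * (Λ / 4 - 1))) * (N ^ η) ^ 3) ^ m * (σ ^ (-η)) ^ 3 ≤ δ := by
    have e1 : N ^ η = Real.exp (Real.log N * η) := Real.rpow_def_of_pos hN0 _
    have e2 : σ ^ (-η) = Real.exp ((Real.log c - (C + 1) * m * Real.log κ + m * Real.log N) *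
        (-η)) := by
      rw [Real.rpow_def_of_pos hσ0, hσ, Real.log_mul (by positivity) (by positivity),
        Real.log_mul (by positivity) (by positivity), Real.log_exp, Real.log_pow]
      congr 1
    rw [e1, e2, ← Real.exp_nat_mul, ← Real.exp_nat_mul, ← Real.exp_add, ← Real.exp_nat_mul,
      ← Real.exp_add, ← Real.exp_log hδ]
    apply Real.exp_le_exp.mpr
    rw [hΛ]
    push_cast
    nlinarith
  calc ((1 - η * (Λ / 4 - 1)) * (N ^ η) ^ 3) ^ m *
        ((#S₁ : ℝ) ^ (1 - η) * (#S₂ : ℝ) ^ (1 - η) * (#S₃ : ℝ) ^ (1 - η))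
      ≤ (Real.exp (-(η * (Λ / 4 - 1))) * (N ^ η) ^ 3) ^ m *
        ((#S₁ * σ ^ (-η)) * (#S₂ * σ ^ (-η)) * (#S₃ * σ ^ (-η))) := by gcongr
    _ = (Real.exp (-(η * (Λ / 4 - 1))) * (N ^ η) ^ 3) ^ m * (σ ^ (-η)) ^ 3 *
        ((#S₁ : ℝ) * #S₂ * #S₃) := by ring
    _ ≤ δ * ((#S₁ : ℝ) * #S₂ * #S₃) := by gcongr

end Pool.Agent.Results.MP_e18f8a_al.AlmostPeriodBarrier
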