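import Pool.Agent.Lib.MP_e18f8a_al.QFin
import Pool.Agent.Lib.MP_e18f8a_al.QRad

/-!
Approximate groups with dense image in a quasirandom group, over a kernel that has small fibres over a
subgroup whose finite subgroups are solvable: the fourth power contains a normal subgroup that maps onto the quasirandom group.
-/

open scoped Pointwise
open Finset

namespace Pool.Agent.Results.MP_e18f8a_al.QuasirandomKernel

open Pool.Agent.Lib.MP_e18f8a_al.QB

theorem result :
    ∀ (G : Type) [Group G] [DecidableEq G] (K M : ℝ) (A : Finset G),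
      IsApproximateSubgroup K (A : Set G) → 1 ≤ M →
      ∀ (Γ : Subgroup G) (Q : Type) [Group Q] [Finite Q] (π : Γ →* Q)
        (N : Subgroup Γ) [N.Normal],
        (∀ F : Subgroup Γ, F ≤ N → Finite F → Group.IsSolvable F) → N ≤ π.ker →
        (∀ n : ℕ, (n : ℝ) < 2 ^ 14 * K ^ 660 * M ^ 2 →
          ∀ ρ : Q →* Matrix.GeneralLinearGroup (Fin n) ℂ, ∀ q, ρ q = 1) →
        (Nat.card Q : ℝ) ≤ M * (π '' {g : Γ | (g : G) ∈ A}).ncard →
        ((QuotientGroup.mk' N '' {g : Γ | (g : G) ∈ A ^ 2}).ncard : ℝ) ≤ M * Nat.card Q →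
        ∃ (P : Subgroup G) (S : Finset G), (P : Set G) = S ∧ S ^ 8 ⊆ A ^ 4 ∧
          (∀ g ∈ Subgroup.closure (A : Set G), ∀ p ∈ P, g * p * g⁻¹ ∈ P) ∧
          (∀ q : Q, ∃ g : Γ, (g : G) ∈ P ∧ π g = q) ∧ Nat.card Q ≤ S.card ∧
          (Group.IsSolvable π.ker → commutator Γ = ⊤ → Γ = Subgroup.closure (A : Set G) →
            P = Γ ∧ A ^ 8 ⊆ A ^ 4) := by
  intro G _ _ K M A hA hM Γ Q _ _ π N _ hN1 hN2 hQ0 h2 h3
  classical
  have hK := hA.one_le
  have hKM : 0 < K ^ 330 * M := by positivity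
  have hQ : QR Q ((128 * K ^ 330 * M) ^ 2) := fun n hn => hQ0 n (hn.trans_eq (by ring))
  obtain ⟨P, -, hP2, hP3, hP4⟩ := radical (d := 128 * K ^ 330 * M) hA (by
    have h1 : K ^ 14 ≤ K ^ 330 := pow_le_pow_right₀ hK (by norm_num)
    have h4 : 0 < K ^ 330 := by positivity
    nlinarith)
  let S := (A ^ 4).filter (· ∈ P)
  have hS : (P : Set G) = S := by
    ext g
    simp only [S, coe_filter, SetLike.mem_coe, Set.mem_ofPred_eq]
    exact ⟨fun h => ⟨by rw [← mem_coe, coe_pow]; exact hP2 h, h⟩, fun h => h.2⟩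
  have hpow : ∀ B : Finset G, (∀ b ∈ B, b ∈ P) → B ^ 8 ⊆ A ^ 4 := fun B hB g hg => by
    have : ∀ n : ℕ, ∀ g ∈ B ^ n, g ∈ P := by
      intro n
      induction n with
      | zero => intro g hg; rw [pow_zero, mem_one] at hg; rw [hg]; exact one_mem P
      | succ n ih =>
        intro g hg
        rw [pow_succ] at hg
        obtain ⟨a, ha, b, hb, rfl⟩ := mem_mul.1 hg
        exact mul_mem (ih a ha) (hB b hb)
    rw [← mem_coe, coe_pow]
    exact hP2 (this 8 g hg)
  have hon : ∀ q : Q, ∃ g : Γ, (g : G) ∈ P ∧ π g = q := fun q => by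
    obtain ⟨L, h1, h4, h5⟩ := exists_over_fin (d := 128 * K ^ 330 * M) hA hM (by nlinarith) Γ π hQ h2
      N hN1 hN2 (by simpa only [← coe_pow, mem_coe] using h3)
    obtain ⟨g, hg, hgq⟩ := h5 q
    exact ⟨g, hP4 L h1 h4 hg, hgq⟩
  refine ⟨P, S, hS, hpow S fun b hb => (mem_filter.1 hb).2, hP3, hon, ?_, fun hk hΓ hcl => ?_⟩
  · choose s hs1 hs2 using hon
    have := Fintype.ofFinite Q
    rw [Nat.card_eq_fintype_card, ← card_univ]
    refine card_le_card_of_injOn (fun q => (s q : G)) (fun q _ => hS ▸ hs1 q) fun q _ q' _ h => ?_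
    rw [← hs2 q, ← hs2 q', Subtype.ext h]
  · have hAΓ : ∀ a ∈ A, a ∈ Γ := fun a ha => hcl ▸ Subgroup.subset_closure ha
    obtain ⟨e1, e2⟩ := perfect_over (d := 128 * K ^ 330 * M) hA hM (by nlinarith) Γ π hQ h2 hΓ (by
      subst hcl
      refine eq_top_iff.2 ((Subgroup.closure_closure_coe_preimage (k := (A : Set G))).ge.trans
        (Subgroup.closure_mono fun g hg => pmono hA (by norm_num) (pone hg))))
    have hle := hP4 Γ e1 e2
    refine ⟨le_antisymm (fun g hg => ?_) hle, hpow A fun a ha => hle (hAΓ a ha)⟩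
    have : (A : Set G) ^ 4 ⊆ Γ := by
      refine (Set.pow_subset_pow_left (show (A : Set G) ⊆ Γ from hAΓ)).trans ?_
      simp only [pow_succ, pow_zero, one_mul, coe_mul_coe, subset_rfl]
    exact this (hP2 hg)

end Pool.Agent.Results.MP_e18f8a_al.QuasirandomKernel
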