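import Pool.Agent.Lib.MP_e18f8a_al.QRed

/-!
Every approximate group has a largest quasirandom subgroup inside its fourth power. It is normal,
and the search for a large set with eighth power inside the fourth power passes to the quotient.
-/

open scoped Pointwise
open Finset

namespace Pool.Agent.Results.MP_e18f8a_al.QuasirandomReduction

open Pool.Agent.Lib.MP_e18f8a_al.QB

/-- All complex representations of dimension below `D` are trivial. -/
def Quasirandom (D : ℝ) (L : Type) [Group L] : Prop :=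
  ∀ n : ℕ, (n : ℝ) < D → ∀ ρ : L →* Matrix.GeneralLinearGroup (Fin n) ℂ, ∀ x, ρ x = 1

theorem result :
    ∀ (G : Type) [Group G] (K D : ℝ) (A : Finset G),
      IsApproximateSubgroup K (A : Set G) → Subgroup.closure (A : Set G) = ⊤ →
      128 * K ^ 14 ≤ D →
      ∃ (P : Subgroup G) (_ : P.Normal) (B : Finset (G ⧸ P)),
        Quasirandom D P ∧ (P : Set G) ⊆ (A : Set G) ^ 4 ∧
        (∀ L : Subgroup G, Quasirandom D L → (L : Set G) ⊆ (A : Set G) ^ 8 → L ≤ P) ∧
        IsApproximateSubgroup (K + 1) (B : Set (G ⧸ P)) ∧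
        (∀ L : Subgroup (G ⧸ P), Quasirandom D L → (L : Set (G ⧸ P)) ⊆ (B : Set (G ⧸ P)) ^ 4 →
          L = ⊥) ∧
        (∀ g : G, (g : G ⧸ P) ∈ (B : Set (G ⧸ P)) ^ 4 → g ∈ (A : Set G) ^ 4) ∧
        (A.card : ℝ) ≤ 2 * B.card * Nat.card P ∧
        ∀ S' : Finset (G ⧸ P), (S' : Set (G ⧸ P)) ^ 8 ⊆ (B : Set (G ⧸ P)) ^ 4 →
          ∃ S : Finset G, (S : Set G) ^ 8 ⊆ (A : Set G) ^ 4 ∧
            (S'.card : ℝ) * A.card ≤ 2 * B.card * S.card := by
  intro G _ K D A hA hcl hD
  classical
  obtain ⟨P, hP, sP, hn, hmax⟩ := radical hA hD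
  have hN : P.Normal := ⟨fun p hp g => hn g (hcl ▸ Subgroup.mem_top g) p hp⟩
  have hfin : (P : Set G).Finite := (fin_pow A 4).subset sP
  have : Finite P := hfin.to_subtype
  have := Fintype.ofFinite P
  have hker : ∀ g, QuotientGroup.mk' P g = 1 ↔ g ∈ P := fun g => QuotientGroup.eq_one_iff g
  obtain ⟨B, hB, -, hsz, hlift⟩ := reduction hA hker hP hD sP
  refine ⟨P, hN, B, hP, sP, hmax, hB, fun L hL sL => ?_, hlift, by
    rwa [Nat.card_eq_fintype_card], fun S' hS' => ?_⟩
  · have h1 := hmax (L.comap (QuotientGroup.mk' P))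
      (QR.comap hker (QuotientGroup.mk'_surjective P) hP L hL) fun g hg => by
        simpa using mul_mem_pow (hlift g (sL hg)) (Set.one_mem_pow (n := 4) hA.one_mem) rfl
    rw [eq_bot_iff]
    intro q hq
    obtain ⟨g, rfl⟩ := QuotientGroup.mk'_surjective P q
    exact (hker g).2 (h1 hq)
  · let f : (G ⧸ P) × P → G := fun w => w.1.out * w.2
    have hf : ∀ w, QuotientGroup.mk' P (f w) = w.1 := fun w => by
      rw [map_mul, (hker _).2 w.2.2, mul_one]
      exact w.1.out_eq'
    have hinj : Function.Injective f := fun w w' h => by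
      have c1 : w.1 = w'.1 := by rw [← hf w, ← hf w', h]
      simp only [f, c1, mul_right_inj] at h
      exact Prod.ext c1 (Subtype.ext h)
    refine ⟨(S' ×ˢ univ).image f, fun g hg => hlift g (hS' ?_), ?_⟩
    · have c1 := Set.mem_image_of_mem (QuotientGroup.mk' P) hg
      rw [Set.image_pow] at c1
      refine Set.pow_subset_pow_left ?_ c1
      rintro _ ⟨x, hx, rfl⟩
      obtain ⟨w, hw, rfl⟩ := mem_image.1 (mem_coe.1 hx)
      rw [hf]
      exact (mem_product.1 hw).1
    · rw [card_image_of_injective _ hinj, card_product, card_univ, Nat.cast_mul]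
      have := mul_le_mul_of_nonneg_left hsz (Nat.cast_nonneg S'.card : (0 : ℝ) ≤ _)
      linarith

end Pool.Agent.Results.MP_e18f8a_al.QuasirandomReduction
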