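import Pool.Agent.Lib.MP_e18f8a_al.SixB

/-!
Large sets `S` with `S ^ k ⊆ A ^ 6` in approximate groups: the loss is `exp (-C log² K / log log K)`.
-/

open scoped Pointwise

namespace Pool.Agent.Results.MP_e18f8a_al.SixFold

open Pool.Agent.Lib.MP_e18f8a_al.Six

theorem result :
    ∃ C : ℝ, 0 < C ∧ ∀ (G : Type) [Group G] [DecidableEq G] (K : ℝ) (A : Finset G) (k : ℕ),
      3 ≤ K → 1 ≤ k → IsApproximateSubgroup K (A : Set G) →
      ∃ S : Finset G, 1 ∈ S ∧ S⁻¹ = S ∧ S ⊆ A ^ 4 ∧ S ^ k ⊆ A ^ 6 ∧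
        Real.exp (-(C * k ^ 2 * Real.log (k * K) * Real.log K / Real.log (Real.log K))) * A.card
          ≤ S.card := by
  refine ⟨20000, by norm_num, fun G _ _ K A k hK hk hA => ?_⟩
  have hk' : (1 : ℝ) ≤ k := by exact_mod_cast hk
  have hK0 : 0 < K := by linarith
  set l := Real.log K with hl
  have hl1 : 1 < l := by
    rw [hl, Real.lt_log_iff_exp_lt hK0]
    exact lt_of_lt_of_le Real.exp_one_lt_three hK
  set u := Real.log l with hu
  have hu0 : 0 < u := Real.log_pos hl1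
  have hul : u ≤ l := by have := Real.log_le_sub_one_of_pos (show 0 < l by linarith); linarith
  have hel : Real.exp u = l := Real.exp_log (by linarith)
  set L := Real.log (k * K) with hL
  have hLk : L = Real.log k + l := Real.log_mul (by linarith) hK0.ne'
  have hlk : 0 ≤ Real.log k := Real.log_nonneg hk'
  have hlog2 : Real.log 2 < 0.7 := lt_trans Real.log_two_lt_d9 (by norm_num)
  have hlog2' : 0 < Real.log 2 := Real.log_pos (by norm_num)
  have h2K : Real.log (2 * K) = Real.log 2 + l := Real.log_mul (by norm_num) hK0.ne'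
  set J := ⌈u⌉₊ with hJ
  have hJ1 : u ≤ J := Nat.le_ceil u
  have hJ2 : (J : ℝ) ≤ u + 1 := (Nat.ceil_lt_add_one hu0.le).le
  have hJ0 : (0 : ℝ) < J := hu0.trans_le hJ1
  set m := ⌈2048 * (k : ℝ) ^ 2 * L⌉₊ with hm
  have hk2 : (1 : ℝ) ≤ (k : ℝ) ^ 2 := one_le_pow₀ hk'
  have hkL : 1 ≤ (k : ℝ) ^ 2 * L := by nlinarith
  have hm1 : 2048 * (k : ℝ) ^ 2 * L ≤ m := Nat.le_ceil _
  have hm2 : (m : ℝ) ≤ 2049 * ((k : ℝ) ^ 2 * L) := by
    have := (Nat.ceil_lt_add_one (show 0 ≤ 2048 * (k : ℝ) ^ 2 * L by linarith)).le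
    linarith
  have hm0 : 0 < m := by
    have : (0 : ℝ) < m := by linarith
    exact_mod_cast this
  obtain ⟨S, h1, h2, h3, h4, h5⟩ := core A K hA J m k (Real.exp (Real.log (2 * K) / J))
    (Real.exp_pos _)
    (by
      rw [← Real.exp_nat_mul, mul_div_cancel₀ _ hJ0.ne', Real.exp_log (by linarith)]
      linarith) hk hm0
    (by
      have e1 : 32 * k * K ^ 4 = Real.exp (5 * Real.log 2 + Real.log k + 4 * l) := by
        rw [Real.exp_add, Real.exp_add, Real.exp_log (by linarith), hl,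
          show (5 : ℝ) = (5 : ℕ) by norm_num, show (4 : ℝ) = (4 : ℕ) by norm_num,
          Real.exp_nat_mul, Real.exp_nat_mul, Real.exp_log (by norm_num), Real.exp_log hK0]
        norm_num
      rw [e1, ← Real.exp_add, Real.exp_le_one_iff]
      have e2 : 8 * L ≤ (1 / (8 * (k : ℝ))) ^ 2 * m / 4 := by
        have e3 : (1 / (8 * (k : ℝ))) ^ 2 * (2048 * (k : ℝ) ^ 2 * L) / 4 = 8 * L := by
          field_simp
          ring
        rw [← e3]
        gcongr
      linarith)
  refine ⟨S, h1, h2, h3, h4, le_trans (mul_le_mul_of_nonneg_right ?_ (Nat.cast_nonneg _)) h5⟩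
  have e4 : (1 / (2 * K)) ^ 2 ^ J / (4 * Real.exp (Real.log (2 * K) / J) ^ (2 * m))
      = Real.exp (-(2 ^ J * Real.log (2 * K) + 2 * Real.log 2
          + 2 * m * (Real.log (2 * K) / J))) := by
    have e5 : Real.exp (2 ^ J * Real.log (2 * K)) = (2 * K) ^ 2 ^ J := by
      rw [show (2 : ℝ) ^ J = ((2 ^ J : ℕ) : ℝ) by push_cast; rfl, Real.exp_nat_mul,
        Real.exp_log (by linarith)]
    have e6 : Real.exp (2 * Real.log 2) = 4 := by
      rw [two_mul, Real.exp_add, Real.exp_log (by norm_num)]; norm_num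
    have e7 : Real.exp (2 * m * (Real.log (2 * K) / J))
        = Real.exp (Real.log (2 * K) / J) ^ (2 * m) := by
      rw [← Real.exp_nat_mul]; push_cast; rfl
    rw [Real.exp_neg, Real.exp_add, Real.exp_add, e5, e6, e7, one_div, inv_pow]
    field_simp
  rw [e4, Real.exp_le_exp, neg_le_neg_iff, le_div_iff₀ hu0]
  have b1 : (2 : ℝ) ^ J * u ≤ 7 * l := by
    have c1 : (2 : ℝ) ^ J = Real.exp (J * Real.log 2) := by
      rw [Real.exp_nat_mul, Real.exp_log (by norm_num)]
    have c2 : Real.exp (J * Real.log 2) ≤ 2 * Real.exp (0.7 * u) := by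
      calc Real.exp (J * Real.log 2) ≤ Real.exp (Real.log 2 + 0.7 * u) :=
            Real.exp_le_exp.mpr (by nlinarith)
        _ = _ := by rw [Real.exp_add, Real.exp_log (by norm_num)]
    have c3 : 0.3 * u + 1 ≤ Real.exp (0.3 * u) := Real.add_one_le_exp _
    have c4 : Real.exp (0.7 * u) * Real.exp (0.3 * u) = l := by
      rw [← Real.exp_add, ← hel]; congr 1; ring
    have c5 := Real.exp_pos (0.7 * u)
    rw [c1]
    nlinarith
  have b2 : Real.log (2 * K) ≤ 2 * l := by linarith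
  have b3 : Real.log (2 * K) / J * u ≤ 2 * l := by
    rw [div_mul_eq_mul_div, div_le_iff₀ hJ0]
    nlinarith
  have b4 : l ≤ (k : ℝ) ^ 2 * L := by nlinarith
  have b5 : (2 : ℝ) ^ J * u * Real.log (2 * K) ≤ 7 * l * (2 * l) :=
    mul_le_mul b1 b2 (by linarith) (by linarith)
  have b6 : (m : ℝ) * (Real.log (2 * K) / J * u) ≤ 2049 * ((k : ℝ) ^ 2 * L) * (2 * l) :=
    mul_le_mul hm2 b3 (mul_nonneg (div_nonneg (by linarith) hJ0.le) hu0.le) (by linarith)
  have b7 : l * l ≤ (k : ℝ) ^ 2 * L * l := mul_le_mul_of_nonneg_right b4 (by linarith)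
  have b8 : Real.log 2 * u ≤ l * l := by nlinarith
  nlinarith

end Pool.Agent.Results.MP_e18f8a_al.SixFold
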